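import Pool.Agent.Helper85.KPA.StC

/-! Project KP, module CAP -/

set_option autoImplicit false

namespace Pool.Agent.Helper63.KPA

open Pool.Agent.Helper85.KPA Pool.Agent.Helper5.KPA Pool.Agent.Helper52.KP MvPolynomial

theorem hCAP : StCAP := by
  intro Q _ _ D L X d f hNoeth hd hf hXL hL0 hpow hdiv
  have hb : ∀ a ∈ L, ∀ b ∈ L, ∀ i ≤ d, a ^ i * b ^ (d - i) ∈ D := hpow
  have hpd : ∀ a ∈ L, a ^ d ∈ D := by
    intro a ha
    have := hb a ha a ha d le_rfl
    rwa [Nat.sub_self, pow_zero, mul_one] at this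
  let I : Ideal D := Ideal.span {(⟨f, hf⟩ : D)}
  have hI : ∀ y : D, (Ideal.Quotient.mk I y = 0) ↔ ∃ v ∈ D, (y : Q) = f * v := by
    intro y
    rw [Ideal.Quotient.eq_zero_iff_mem, Ideal.mem_span_singleton]
    constructor
    · rintro ⟨c, hc⟩
      exact ⟨c, c.2, by rw [hc]; rfl⟩
    · rintro ⟨v, hv, h⟩
      exact ⟨⟨v, hv⟩, Subtype.ext h⟩
  have hfin : (associatedPrimes D (D ⧸ I)).Finite := associatedPrimes.finite D (D ⧸ I)
  -- the subspace of an associated prime
  have hV : ∀ p ∈ associatedPrimes D (D ⧸ I), ∃ V : Submodule ℂ L, V ≠ ⊤ ∧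
      ∀ l : L, (⟨(l : Q) ^ d, hpd l l.2⟩ : D) ∈ p → l ∈ V := by
    intro p hp
    have hp' : IsAssociatedPrime p (D ⧸ I) := hp
    have hpr : p.IsPrime := hp'.isPrime
    have hterm : ∀ (a b : L), (⟨(a : Q) ^ d, hpd a a.2⟩ : D) ∈ p →
        (⟨(b : Q) ^ d, hpd b b.2⟩ : D) ∈ p → ∀ i (hi : i ≤ d),
        (⟨(a : Q) ^ i * (b : Q) ^ (d - i), hb a a.2 b b.2 i hi⟩ : D) ∈ p := by
      intro a b ha hb' i hi
      refine hpr.mem_of_pow_mem d ?_
      have e : (⟨(a : Q) ^ i * (b : Q) ^ (d - i), hb a a.2 b b.2 i hi⟩ : D) ^ d =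
          (⟨(a : Q) ^ d, hpd a a.2⟩ : D) ^ i * (⟨(b : Q) ^ d, hpd b b.2⟩ : D) ^ (d - i) := by
        apply Subtype.ext
        push_cast
        rw [mul_pow, ← pow_mul, ← pow_mul, ← pow_mul, ← pow_mul, mul_comm i d,
          mul_comm (d - i) d]
      rw [e]
      rcases Nat.eq_zero_or_pos i with h0 | h0
      · subst h0
        rw [pow_zero, one_mul, Nat.sub_zero]
        exact Ideal.pow_mem_of_mem p hb' d hd
      · exact p.mul_mem_right _ (Ideal.pow_mem_of_mem p ha i h0)
    let V : Submodule ℂ L :=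
      { carrier := {l | (⟨(l : Q) ^ d, hpd l l.2⟩ : D) ∈ p}
        add_mem' := by
          intro a b ha hb'
          change (⟨((a + b : L) : Q) ^ d, hpd _ (a + b).2⟩ : D) ∈ p
          have e : (⟨((a + b : L) : Q) ^ d, hpd _ (a + b).2⟩ : D) =
              ∑ i ∈ (Finset.range (d + 1)).attach,
                (⟨(a : Q) ^ (i : ℕ) * (b : Q) ^ (d - i), hb a a.2 b b.2 i
                  (Nat.lt_succ_iff.1 (Finset.mem_range.1 i.2))⟩ : D) * ((d.choose i : ℕ) : D) := by
            apply Subtype.ext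
            rw [AddSubmonoidClass.coe_finset_sum]
            push_cast
            rw [add_pow]
            exact (Finset.sum_attach (Finset.range (d + 1))
              (fun i => (a : Q) ^ i * (b : Q) ^ (d - i) * (d.choose i : Q))).symm
          rw [e]
          exact p.sum_mem fun i _ => p.mul_mem_right _ (hterm a b ha hb' i
            (Nat.lt_succ_iff.1 (Finset.mem_range.1 i.2)))
        zero_mem' := by
          change (⟨((0 : L) : Q) ^ d, hpd _ (0 : L).2⟩ : D) ∈ p
          have e : (⟨((0 : L) : Q) ^ d, hpd _ (0 : L).2⟩ : D) = 0 := by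
            apply Subtype.ext
            change ((0 : L) : Q) ^ d = ((0 : D) : Q)
            rw [ZeroMemClass.coe_zero, ZeroMemClass.coe_zero, zero_pow hd.ne']
          rw [e]
          exact p.zero_mem
        smul_mem' := by
          intro c a ha
          change (⟨((c • a : L) : Q) ^ d, hpd _ (c • a).2⟩ : D) ∈ p
          have e : (⟨((c • a : L) : Q) ^ d, hpd _ (c • a).2⟩ : D) =
              algebraMap ℂ D (c ^ d) * (⟨(a : Q) ^ d, hpd a a.2⟩ : D) := by
            apply Subtype.ext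
            change (c • (a : Q)) ^ d = algebraMap ℂ Q (c ^ d) * (a : Q) ^ d
            rw [smul_pow, Algebra.smul_def]
          rw [e]
          exact p.mul_mem_left _ ha }
    refine ⟨V, ?_, fun l hl => hl⟩
    intro htop
    obtain ⟨_, x, hx⟩ := isAssociatedPrime_iff.1 hp'
    obtain ⟨y, rfl⟩ := Ideal.Quotient.mk_surjective x
    have hmem : ∀ c : D, c ∈ p ↔ Ideal.Quotient.mk I (c * y) = 0 := by
      intro c
      rw [hx, Submodule.mem_colon_singleton, Submodule.mem_bot]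
      rfl
    have h1 : Ideal.Quotient.mk I y = 0 := by
      rw [hI]
      refine hdiv y y.2 fun x hx => ?_
      have h2 : (⟨x, hXL hx⟩ : L) ∈ V := by rw [htop]; trivial
      have h3 : (⟨x ^ d, hpd x (hXL hx)⟩ : D) ∈ p := h2
      exact (hI _).1 ((hmem _).1 h3)
    apply hpr.ne_top
    rw [Ideal.eq_top_iff_one, hmem, one_mul]
    exact h1
  choose! V hVt hVm using hV
  have hLt : (⊥ : Submodule ℂ L) ≠ ⊤ := by
    intro h
    apply hL0
    rw [eq_bot_iff]
    intro x hx
    have : (⟨x, hx⟩ : L) ∈ (⊥ : Submodule ℂ L) := by rw [h]; trivial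
    rw [Submodule.mem_bot] at this
    rw [Submodule.mem_bot]
    exact congrArg Subtype.val this
  classical
  let s : Finset (Submodule ℂ L) := insert ⊥ (hfin.toFinset.image V)
  have hs : (⊤ : Submodule ℂ L) ∉ s := by
    intro h
    rcases Finset.mem_insert.1 h with h | h
    · exact hLt h.symm
    · obtain ⟨p, hp, he⟩ := Finset.mem_image.1 h
      exact hVt p (hfin.mem_toFinset.1 hp) he
  have hcov := Subspace.biUnion_ne_univ_of_top_notMem hs
  rw [Set.ne_univ_iff_exists_notMem] at hcov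
  obtain ⟨l, hl⟩ := hcov
  simp only [Set.mem_iUnion, not_exists] at hl
  have hl0 : (l : Q) ≠ 0 := by
    intro h
    refine hl ⊥ (Finset.mem_insert_self _ _) ?_
    change l ∈ (⊥ : Submodule ℂ L)
    rw [Submodule.mem_bot]
    exact Subtype.ext h
  refine ⟨l, l.2, hl0, fun y hy hv => ?_⟩
  by_contra hno
  have h1 : Ideal.Quotient.mk I (⟨y, hy⟩ : D) ≠ 0 := fun h => hno ((hI _).1 h)
  have h2 : (⟨(l : Q) ^ d, hpd l l.2⟩ : D) ∈
      ({ r : D | ∃ x : D ⧸ I, x ≠ 0 ∧ r • x = 0 } : Set D) := by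
    refine ⟨Ideal.Quotient.mk I (⟨y, hy⟩ : D), h1, ?_⟩
    change Ideal.Quotient.mk I ((⟨(l : Q) ^ d, hpd l l.2⟩ : D) * (⟨y, hy⟩ : D)) = 0
    exact (hI _).2 hv
  rw [← biUnion_associatedPrimes_eq_zero_divisors D (D ⧸ I)] at h2
  simp only [Set.mem_iUnion] at h2
  obtain ⟨p, hp, hlp⟩ := h2
  exact hl (V p) (Finset.mem_insert_of_mem (Finset.mem_image_of_mem V
    (hfin.mem_toFinset.2 hp))) (hVm p hp l hlp)

end Pool.Agent.Helper63.KPA
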