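import Pool.Agent.Helper85.KPA.StC

/-! Project KP, module CXG -/

set_option autoImplicit false

namespace Pool.Agent.Helper63.KPA

open Pool.Agent.Helper85.KPA Pool.Agent.Helper5.KPA Pool.Agent.Helper52.KP MvPolynomial

private theorem mem_QR {C : Cone} {k : ℕ} {x : QQ C.m} : x ∈ QR C k ↔ ∀ l, x.coeff l ∈ C.R k :=
  Iff.rfl

private theorem exists_X {C : Cone} (hC : Good C) : ∃ i, C.X i ≠ 0 := by
  have h1 : ∃ z, ev C.Δ z ≠ 0 := by
    by_contra h
    push Not at h
    exact hC.Δ0 (MvPolynomial.funext fun z => by rw [map_zero]; exact h z)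
  obtain ⟨z, hz⟩ := h1
  have h2 := hC.Xpos z hz
  by_contra h
  push Not at h
  have : C.sz z = 0 := by
    unfold Cone.sz
    refine Finset.sum_eq_zero fun i _ => ?_
    rw [h i]
    simp [ev]
  rw [this] at h2
  exact lt_irrefl _ h2

theorem hCXG : StCHM → StCND → StCXD → StCXG := by
  intro hCHM hCND hCXD C hC r F hF k₀ f hf hf0 y hy hyv
  obtain ⟨c1, _, c3, c4⟩ := hCHM C.m C.w
  obtain ⟨_, hN⟩ := hCND C hC r F hF
  have hd : 0 < C.n * r := Nat.mul_pos hC.hn hF.hr
  obtain ⟨d, hdd⟩ : ∃ d, d = C.n * r := ⟨_, rfl⟩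
  rw [← hdd] at hf hy hyv hN hd ⊢
  have hPf : Ps C.w f = Polynomial.C f * Polynomial.X ^ (d * k₀) := by
    rw [c3]
    intro l
    exact (c1 _ _).1 fun c z => hC.hom _ _ (mem_QR.1 hf l) c z
  have hPX : ∀ i, Ps C.w (Polynomial.C (C.X i ^ d)) =
      Polynomial.C (Polynomial.C (C.X i ^ d)) * Polynomial.X ^ d := by
    intro i
    rw [c3]
    intro l
    refine (c1 _ _).1 fun c z => ?_
    rw [Polynomial.coeff_C]
    split_ifs
    · simp only [ev, map_pow]
      have := hC.hom 1 (C.X i) (hC.XR i) c z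
      rw [pow_one] at this
      simp only [ev] at this
      rw [this, mul_pow]
    · simp [ev]
  have hco : ∀ i, ∀ v ∈ Dd C d, Polynomial.C (C.X i ^ d) * y = f * v → ∀ n,
      Polynomial.C (C.X i ^ d) * (Ps C.w y).coeff n =
        f * (if d * k₀ ≤ n + d then (Ps C.w v).coeff (n + d - d * k₀) else 0) := by
    intro i v hv he n
    have h1 := congrArg (Ps C.w) he
    rw [map_mul, map_mul, hPf, hPX] at h1
    have h2 := congrArg (fun p => Polynomial.coeff p (n + d)) h1
    rw [mul_assoc, mul_assoc, Polynomial.coeff_C_mul, Polynomial.coeff_C_mul,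
      Polynomial.coeff_X_pow_mul, Polynomial.coeff_X_pow_mul'] at h2
    exact h2
  obtain ⟨i₀, hi₀⟩ := exists_X hC
  have hX0 : (Polynomial.C (C.X i₀ ^ d) : QQ C.m) ≠ 0 :=
    Polynomial.C_ne_zero.2 (pow_ne_zero _ hi₀)
  have key : ∀ n, ∃ g ∈ Dd C d, (Ps C.w y).coeff n = f * g := by
    intro n
    by_cases h0 : (Ps C.w y).coeff n = 0
    · exact ⟨0, (Dd C d).zero_mem, by rw [h0, mul_zero]⟩
    · have hdn : d ∣ n := by
        by_contra h
        exact h0 ((hN y hy n).2 h)
      obtain ⟨k, rfl⟩ := hdn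
      have hle : d * k₀ ≤ d * k + d := by
        by_contra hlt
        obtain ⟨v, hv, he⟩ := hyv i₀
        have := hco i₀ v hv he (d * k)
        rw [if_neg hlt, mul_zero] at this
        rcases mul_eq_zero.1 this with h | h
        · exact hX0 h
        · exact h0 h
      have hk : k₀ ≤ k + 1 := by
        have : d * k₀ ≤ d * (k + 1) := by rw [mul_add, mul_one]; exact hle
        exact Nat.le_of_mul_le_mul_left this hd
      obtain ⟨_, g, hg, he⟩ := hCXD C hC d k₀ k f ((Ps C.w y).coeff (d * k)) hd hf hf0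
        (hN y hy _).1 hk (fun i => by
          obtain ⟨v, hv, he⟩ := hyv i
          have h3 := hco i v hv he (d * k)
          rw [if_pos hle] at h3
          have h4 : d * k + d - d * k₀ = d * (k + 1 - k₀) := by
            rw [Nat.mul_sub, mul_add, mul_one]
          rw [h4] at h3
          exact ⟨_, (hN v hv _).1, h3⟩) h0
      exact ⟨g, Algebra.subset_adjoin ⟨_, hg⟩, he⟩
  choose g hg hge using key
  refine ⟨∑ n ∈ Finset.range ((Ps C.w y).natDegree + 1), g n,
    Subalgebra.sum_mem _ fun n _ => hg n, ?_⟩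
  have h5 := c4 y
  rw [Polynomial.eval_eq_sum_range] at h5
  refine h5.symm.trans ?_
  rw [Finset.mul_sum]
  refine Finset.sum_congr rfl fun n _ => ?_
  rw [one_pow, mul_one]
  exact hge n

end Pool.Agent.Helper63.KPA
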