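import Pool.Agent.Helper5.KPA.StT

/-!
# Project KP, MODULE TIN (the trace is a polynomial)
-/

set_option autoImplicit false

namespace Pool.Agent.Helper63.KPA

open Pool.Agent.Helper5.KPA Pool.Agent.Helper52.KP MvPolynomial MeasureTheory

private theorem cont_ev {m : ℕ} (P : MvPolynomial (Fin m) ℂ) : Continuous (fun z => ev P z) :=
  MvPolynomial.continuous_eval P

private theorem cont_evm {M : ℕ} (a : Fin M → MvPolynomial (Fin M) ℂ) : Continuous (evm a) :=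
  continuous_pi fun i => cont_ev (a i)

private theorem sum_le {X : Type} (P : X → Prop) (f : X → ENNReal) (Z : Finset X)
    (hZ : ∀ x ∈ Z, P x) : ∑ x ∈ Z, f x ≤ ∑' x : {x // P x}, f x.1 := by
  classical
  rw [← Finset.sum_subtype_of_mem f hZ]
  exact ENNReal.sum_le_tsum _

private theorem sq_le {X : Type} (Z : Finset X) (f : X → ℂ) :
    ENNReal.ofReal (‖∑ x ∈ Z, f x‖ ^ 2) ≤ (Z.card : ENNReal) *
      ∑ x ∈ Z, ENNReal.ofReal (‖f x‖ ^ 2) := by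
  have h3 : ‖∑ x ∈ Z, f x‖ ^ 2 ≤ (Z.card : ℝ) * ∑ x ∈ Z, ‖f x‖ ^ 2 :=
    (pow_le_pow_left₀ (norm_nonneg _) (norm_sum_le _ _) 2).trans sq_sum_le_card_mul_sum_sq
  refine (ENNReal.ofReal_le_ofReal h3).trans ?_
  rw [ENNReal.ofReal_mul (Nat.cast_nonneg _), ENNReal.ofReal_natCast,
    ENNReal.ofReal_sum_of_nonneg fun _ _ => by positivity]

private theorem core {M : ℕ} (e : (Fin M → ℂ) → Fin M → ℂ) (he : Continuous e)
    (N D p q G b : MvPolynomial (Fin M) ℂ) (hp : p = b * G) (δ : ℕ)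
    (hfib : ∀ v : Fin M → ℂ, ev D v ≠ 0 →
      ∃ Z : Finset (Fin M → ℂ), Z.card = δ ∧ (∀ ζ, ζ ∈ Z ↔ e ζ = v) ∧
        (∀ ζ ∈ Z, ev q ζ ≠ 0) ∧ ev N v / ev D v = ∑ ζ ∈ Z, ev p ζ / ev q ζ)
    (hTAF : ∀ ψ : (Fin M → ℂ) → ENNReal, Measurable ψ → ∀ S : Set (Fin M → ℂ), MeasurableSet S →
      ∫⁻ v in S, (∑' ζ : {ζ : Fin M → ℂ // e ζ = v ∧ ev q ζ ≠ 0}, ψ ζ.1) ≤
      ∫⁻ ζ in {ζ | e ζ ∈ S}, ψ ζ * ENNReal.ofReal (‖ev q ζ‖ ^ 2)) (c : ℝ)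
    (hG : ∫⁻ ζ in {ζ : Fin M → ℂ | ‖e ζ‖ ≤ c}, ENNReal.ofReal (‖ev G ζ‖ ^ 2) ≠ ⊤)
    (hb : ∃ K : ℝ, ∀ ζ : Fin M → ℂ, ‖e ζ‖ ≤ c → ‖ev b ζ‖ ≤ K) :
    ∫⁻ v in {v : Fin M → ℂ | ‖v‖ ≤ c}, ENNReal.ofReal (‖ev N v / ev D v‖ ^ 2) ≠ ⊤ := by
  have hψm : Measurable (fun ζ => ENNReal.ofReal (‖ev p ζ / ev q ζ‖ ^ 2)) := by
    refine Measurable.ennreal_ofReal (Measurable.pow_const (Measurable.norm ?_) 2)
    exact (cont_ev _).measurable.div (cont_ev _).measurable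
  have hS : MeasurableSet {v : Fin M → ℂ | ‖v‖ ≤ c} :=
    measurableSet_le continuous_norm.measurable measurable_const
  have h1 := hTAF _ hψm {v : Fin M → ℂ | ‖v‖ ≤ c} hS
  have h2 : ∫⁻ v in {v : Fin M → ℂ | ‖v‖ ≤ c}, ENNReal.ofReal (‖ev N v / ev D v‖ ^ 2) ≤
      ∫⁻ v in {v : Fin M → ℂ | ‖v‖ ≤ c}, (δ : ENNReal) *
        (∑' ζ : {ζ : Fin M → ℂ // e ζ = v ∧ ev q ζ ≠ 0},
          ENNReal.ofReal (‖ev p ζ.1 / ev q ζ.1‖ ^ 2)) := by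
    refine setLIntegral_mono' hS fun v _ => ?_
    by_cases hv : ev D v = 0
    · rw [hv]
      simp
    · obtain ⟨Z, hZc, hZ, hZq, hZs⟩ := hfib v hv
      rw [hZs]
      refine (sq_le Z _).trans ?_
      rw [hZc]
      refine mul_le_mul_right ?_ _
      exact sum_le (fun ζ => e ζ = v ∧ ev q ζ ≠ 0)
        (fun ζ => ENNReal.ofReal (‖ev p ζ / ev q ζ‖ ^ 2)) Z
        fun ζ hζ => ⟨(hZ ζ).1 hζ, hZq ζ hζ⟩
  refine (h2.trans_lt ?_).ne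
  rw [lintegral_const_mul' _ _ (ENNReal.natCast_ne_top δ)]
  refine ENNReal.mul_lt_top (ENNReal.natCast_ne_top δ).lt_top (h1.trans_lt ?_)
  obtain ⟨K, hK⟩ := hb
  have hS' : MeasurableSet {ζ : Fin M → ℂ | e ζ ∈ {v : Fin M → ℂ | ‖v‖ ≤ c}} :=
    he.measurable hS
  calc ∫⁻ ζ in {ζ : Fin M → ℂ | e ζ ∈ {v : Fin M → ℂ | ‖v‖ ≤ c}},
      ENNReal.ofReal (‖ev p ζ / ev q ζ‖ ^ 2) * ENNReal.ofReal (‖ev q ζ‖ ^ 2) ≤
      ∫⁻ ζ in {ζ : Fin M → ℂ | e ζ ∈ {v : Fin M → ℂ | ‖v‖ ≤ c}},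
        ENNReal.ofReal (K ^ 2) * ENNReal.ofReal (‖ev G ζ‖ ^ 2) := by
        refine setLIntegral_mono' hS' fun ζ hζ => ?_
        rw [← ENNReal.ofReal_mul (by positivity), ← ENNReal.ofReal_mul (by positivity)]
        refine ENNReal.ofReal_le_ofReal ?_
        have h5 : ‖ev p ζ / ev q ζ‖ ^ 2 * ‖ev q ζ‖ ^ 2 ≤ ‖ev p ζ‖ ^ 2 := by
          by_cases h0 : ev q ζ = 0
          · rw [h0]
            simp only [norm_zero, ne_eq, OfNat.ofNat_ne_zero, not_false_eq_true, zero_pow, mul_zero]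
            positivity
          · rw [norm_div]
            have : ‖ev q ζ‖ ≠ 0 := norm_ne_zero_iff.2 h0
            refine le_of_eq ?_
            field_simp
        refine h5.trans ?_
        have h6 : ‖ev p ζ‖ = ‖ev b ζ‖ * ‖ev G ζ‖ := by
          rw [hp]
          simp only [ev, map_mul, norm_mul]
        rw [h6, mul_pow]
        have h7 : ‖ev b ζ‖ ≤ K := hK ζ hζ
        gcongr
    _ = ENNReal.ofReal (K ^ 2) * ∫⁻ ζ in {ζ : Fin M → ℂ | ‖e ζ‖ ≤ c},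
        ENNReal.ofReal (‖ev G ζ‖ ^ 2) := lintegral_const_mul' _ _ ENNReal.ofReal_ne_top
    _ < ⊤ := ENNReal.mul_lt_top ENNReal.ofReal_lt_top hG.lt_top

theorem hTIN (hTAF : StTAF) (hTRL : StTRL) : StTIN := by
  intro M a δ T _ hq hT G b hG hb
  obtain ⟨N, D, hD, hTe, hfib⟩ := hT.fib (b * G) (jac a) hq
  have hdvd : D ∣ N := hTRL M N D hD fun c =>
    core (evm a) (cont_evm a) N D (b * G) (jac a) G b rfl δ hfib (hTAF M a) c (hG c) (hb c)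
  obtain ⟨α, hα⟩ := hdvd
  refine ⟨α, ?_⟩
  rw [hTe, hα]
  have h0 : emb D ≠ 0 := by
    intro h
    exact hD ((IsFractionRing.injective (MvPolynomial (Fin M) ℂ) (KK M)) (by
      rw [map_zero]; exact h))
  rw [show emb (D * α) = emb D * emb α from map_mul _ _ _, mul_div_cancel_left₀ _ h0]

end Pool.Agent.Helper63.KPA
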